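import Pool.Agent.Q189.IB.Stm

set_option autoImplicit false

namespace Pool.Agent.Q176.IB

open Polynomial
open Pool.Agent.Q189.IB

/-- the order of a pole at `α` -/
lemma pole {P S T1 A : ℚ[X]} {α c : ℚ} {m : ℕ} (hm : 1 ≤ m) (hS : S.eval α ≠ 0) (hP : P.eval α ≠ 0)
    (h : ((X - C α) * T1) * (derivative P * ((X - C α) ^ m * S) - P * derivative ((X - C α) ^ m * S)) =
      A * P * ((X - C α) ^ m * S) + C c * ((X - C α) ^ m * S) ^ 2) :
    (m : ℚ) * T1.eval α + A.eval α = 0 := by
  obtain ⟨k, rfl⟩ : ∃ k, m = k + 1 := ⟨m - 1, by omega⟩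
  have hd : derivative ((X - C α) ^ (k + 1) * S) =
      ((k + 1 : ℕ) : ℚ[X]) * (X - C α) ^ k * S + (X - C α) ^ (k + 1) * derivative S := by
    rw [derivative_mul, derivative_X_sub_C_pow, Nat.add_sub_cancel, C_eq_natCast]
  rw [hd] at h
  have hne : (X - C α : ℚ[X]) ^ (k + 1) ≠ 0 := pow_ne_zero _ (X_sub_C_ne_zero α)
  have h2 : T1 * ((X - C α) * derivative P * S - ((k + 1 : ℕ) : ℚ[X]) * P * S - (X - C α) * P * derivative S) =
      A * P * S + C c * (X - C α) ^ (k + 1) * S ^ 2 := by
    apply mul_left_cancel₀ hne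
    linear_combination h
  have h3 := congrArg (eval α) h2
  simp only [eval_mul, eval_sub, eval_add, eval_pow, eval_X, eval_C, sub_self, zero_mul, eval_natCast, zero_sub,
    sub_zero] at h3
  rw [zero_pow (Nat.succ_ne_zero k), mul_zero, zero_mul, add_zero] at h3
  have h4 : (((k + 1 : ℕ) : ℚ) * T1.eval α + A.eval α) * (P.eval α * S.eval α) = 0 := by
    linear_combination -h3
  exact (mul_eq_zero.1 h4).resolve_right (mul_ne_zero hP hS)

lemma not_dvd_eval {S : ℚ[X]} {α : ℚ} (h : ¬ (X - C α) ∣ S) : S.eval α ≠ 0 := fun h0 =>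
  h (dvd_iff_isRoot.2 h0)

/-- no pole at `α` -/
lemma nopole {P Q T1 A : ℚ[X]} {α c : ℚ} (hQ : Q ≠ 0) (hco : IsCoprime P Q)
    (h : ((X - C α) * T1) * (derivative P * Q - P * derivative Q) = A * P * Q + C c * Q ^ 2)
    (hint : ∀ m : ℕ, (m : ℚ) * T1.eval α + A.eval α ≠ 0) : Q.eval α ≠ 0 := by
  intro h0
  obtain ⟨S, hS, hnd⟩ := exists_eq_pow_rootMultiplicity_mul_and_not_dvd Q hQ α
  set m := rootMultiplicity α Q with hm
  have hm1 : 1 ≤ m := (rootMultiplicity_pos hQ).2 h0
  have hP : P.eval α ≠ 0 := by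
    intro h1
    obtain ⟨a, b, hab⟩ := hco
    have h2 := congrArg (eval α) hab
    rw [eval_add, eval_mul, eval_mul, h1, h0, mul_zero, mul_zero, add_zero, eval_one] at h2
    exact zero_ne_one h2
  rw [hS] at h
  exact hint m (pole hm1 (not_dvd_eval hnd) hP h)

/-- a polynomial solution is impossible -/
lemma nopoly {P : ℚ[X]} {w u : ℚ} (hw : 0 < w) {c : ℚ} (hc : c ≠ 0)
    (h : X * (1 - X) * derivative P = (C (-u) + C w * X) * P + C c) : False := by
  by_cases hP : P = 0
  · rw [hP, derivative_zero, mul_zero, mul_zero, zero_add] at h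
    exact hc (C_eq_zero.1 h.symm)
  · have h1 := congrArg (fun f => coeff f (P.natDegree + 1)) h
    have e1 : X * (1 - X) * derivative P = X * derivative P - X * (X * derivative P) := by ring
    have e2 : (C (-u) + C w * X) * P + C c = C (-u) * P + C w * (X * P) + C c := by ring
    rw [e1, e2] at h1
    simp only [coeff_sub, coeff_add, coeff_C_mul, coeff_X_mul, coeff_C_succ] at h1
    have h2 : P.coeff (P.natDegree + 1) = 0 := coeff_eq_zero_of_natDegree_lt (Nat.lt_succ_self _)
    have h3 : (derivative P).coeff P.natDegree = 0 := by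
      rw [coeff_derivative, h2, zero_mul]
    have h4 : (X * derivative P).coeff P.natDegree = (P.natDegree : ℚ) * P.coeff P.natDegree := by
      cases hn : P.natDegree with
      | zero => simp
      | succ n =>
        rw [coeff_X_mul, coeff_derivative]
        push_cast
        ring
    rw [h2, h3, h4] at h1
    have hlc : P.coeff P.natDegree ≠ 0 := by
      rw [coeff_natDegree]
      exact leadingCoeff_ne_zero.2 hP
    have h5 : ((P.natDegree : ℚ) + w) * P.coeff P.natDegree = 0 := by linear_combination -h1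
    rcases mul_eq_zero.1 h5 with h6 | h6
    · have : (0 : ℚ) ≤ (P.natDegree : ℚ) := Nat.cast_nonneg _
      linarith
    · exact hlc h6

/-- coprime solutions are impossible -/
lemma coprime_case {u v c : ℚ} (hu : 0 < u) (hv : 0 < v) (hui : ∀ z : ℤ, u ≠ z) (hvi : ∀ z : ℤ, v ≠ z) (hc : c ≠ 0)
    {P Q : ℚ[X]} (hQ : Q ≠ 0) (hco : IsCoprime P Q)
    (h : X * (1 - X) * (derivative P * Q - P * derivative Q) =
      (C (-u) + C (u + v) * X) * P * Q + C c * Q ^ 2) : False := by
  have h0 : Q.eval 0 ≠ 0 := by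
    refine nopole (T1 := 1 - X) (A := C (-u) + C (u + v) * X) (c := c) hQ hco ?_ ?_
    · rw [← h, C_0, sub_zero]
    · intro m hm
      simp only [eval_sub, eval_one, eval_X, eval_add, eval_mul, eval_C, sub_zero, mul_one, mul_zero, add_zero] at hm
      exact hui m (by push_cast; linarith)
  have h1 : Q.eval 1 ≠ 0 := by
    refine nopole (T1 := -X) (A := C (-u) + C (u + v) * X) (c := c) hQ hco ?_ ?_
    · rw [← h, C_1]
      ring
    · intro m hm
      simp only [eval_neg, eval_X, eval_add, eval_mul, eval_C, mul_one] at hm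
      exact hvi m (by push_cast; linarith)
  have hX : IsCoprime Q (X * (1 - X)) := by
    apply IsCoprime.mul_right
    · have h2 : IsCoprime (X : ℚ[X]) Q := by
        rw [irreducible_X.coprime_iff_not_dvd]
        intro h3
        rw [X_dvd_iff, coeff_zero_eq_eval_zero] at h3
        exact h0 h3
      exact h2.symm
    · have h2 : IsCoprime (X - C 1 : ℚ[X]) Q := by
        rw [(irreducible_X_sub_C (1 : ℚ)).coprime_iff_not_dvd]
        intro h3
        exact h1 (dvd_iff_isRoot.1 h3)
      have h4 : (1 - X : ℚ[X]) = -(X - C 1) := by rw [C_1]; ring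
      rw [h4]
      exact h2.symm.neg_right
  have hd : Q ∣ derivative Q := by
    have h2 : Q ∣ X * (1 - X) * (P * derivative Q) := by
      refine ⟨X * (1 - X) * derivative P - (C (-u) + C (u + v) * X) * P - C c * Q, ?_⟩
      linear_combination -h
    have h3 : Q ∣ P * derivative Q := hX.dvd_of_dvd_mul_left h2
    exact hco.symm.dvd_of_dvd_mul_left h3
  have hd0 : derivative Q = 0 := by
    by_contra hne
    have h2 := degree_le_of_dvd hd hne
    exact absurd (degree_derivative_lt hQ) (not_lt.2 h2)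
  have hdeg : Q.natDegree = 0 := derivative_eq_zero.1 hd0
  obtain ⟨q, hq⟩ : ∃ q : ℚ, Q = C q := ⟨Q.coeff 0, eq_C_of_natDegree_eq_zero hdeg⟩
  have hq0 : q ≠ 0 := by
    rintro rfl
    rw [C_0] at hq
    exact hQ hq
  have hcq : c * q ≠ 0 := mul_ne_zero hc hq0
  refine nopoly (P := P) (w := u + v) (u := u) (by linarith) hcq ?_
  apply mul_right_cancel₀ hQ
  rw [hd0] at h
  rw [C_mul, ← hq]
  linear_combination h

/-- Job RAT. -/
theorem t_RAT : S_RAT := by
  rintro u v c hu hv hui hvi hc ⟨P, Q, hQ, h⟩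
  obtain ⟨P1, hP1⟩ := EuclideanDomain.gcd_dvd_left P Q
  obtain ⟨Q1, hQ1⟩ := EuclideanDomain.gcd_dvd_right P Q
  set g := EuclideanDomain.gcd P Q with hg
  have hg0 : g ≠ 0 := by
    intro h0
    rw [h0, zero_mul] at hQ1
    exact hQ hQ1
  have hQ10 : Q1 ≠ 0 := by
    rintro rfl
    rw [mul_zero] at hQ1
    exact hQ hQ1
  have hco : IsCoprime P1 Q1 := by
    have h1 := EuclideanDomain.gcd_eq_gcd_ab P Q
    refine ⟨EuclideanDomain.gcdA P Q, EuclideanDomain.gcdB P Q, ?_⟩
    apply mul_left_cancel₀ hg0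
    rw [mul_one]
    calc g * (EuclideanDomain.gcdA P Q * P1 + EuclideanDomain.gcdB P Q * Q1)
        = (g * P1) * EuclideanDomain.gcdA P Q + (g * Q1) * EuclideanDomain.gcdB P Q := by ring
      _ = P * EuclideanDomain.gcdA P Q + Q * EuclideanDomain.gcdB P Q := by rw [← hP1, ← hQ1]
      _ = g := h1.symm
  refine coprime_case hu hv hui hvi hc hQ10 hco ?_
  have hg2 : g ^ 2 ≠ 0 := pow_ne_zero 2 hg0
  apply mul_left_cancel₀ hg2
  have h2 : derivative P = derivative g * P1 + g * derivative P1 := by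
    conv_lhs => rw [hP1]
    rw [derivative_mul]
  have h3 : derivative Q = derivative g * Q1 + g * derivative Q1 := by
    conv_lhs => rw [hQ1]
    rw [derivative_mul]
  have h4 : X * (1 - X) * ((derivative g * P1 + g * derivative P1) * (g * Q1) -
      (g * P1) * (derivative g * Q1 + g * derivative Q1)) =
      (C (-u) + C (u + v) * X) * (g * P1) * (g * Q1) + C c * (g * Q1) ^ 2 := by
    rw [← h2, ← h3, ← hP1, ← hQ1]
    exact h
  linear_combination h4

end Pool.Agent.Q176.IB
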